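import Pool.Agent.V11253.PK.Fin

set_option autoImplicit false

namespace Pool.Agent.Results.MP_b5f1b3_co.PackingColouring

/-- Every vertex has exactly three neighbours. -/
def Cubic {V : Type} (G : SimpleGraph V) : Prop := ∀ u : V, (G.neighborSet u).ncard = 3

/-- No induced claw: among any three distinct neighbours of a vertex two are adjacent. -/
def ClawFree {V : Type} (G : SimpleGraph V) : Prop :=
  ∀ u x y z : V, G.Adj u x → G.Adj u y → G.Adj u z → x ≠ y → x ≠ z → y ≠ z →
    G.Adj x y ∨ G.Adj x z ∨ G.Adj y z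

/-- Distinct vertices of `X` are at distance larger than `s` (infinite distance allowed). -/
def IsPacking {V : Type} (G : SimpleGraph V) (s : ℕ) (X : Set V) : Prop :=
  ∀ u ∈ X, ∀ w ∈ X, u ≠ w → (s : ℕ∞) < G.edist u w

lemma of_walk {V : Type} {G : SimpleGraph V} {s : ℕ} {X : Set V}
    (h : V11253.PK.IsPacking G s X) : IsPacking G s X := by
  intro u hu w hw huw
  by_contra hcon
  rw [not_lt] at hcon
  have hne : G.edist u w ≠ ⊤ := ne_top_of_le_ne_top (ENat.coe_ne_top s) hcon
  obtain ⟨p, hp⟩ := SimpleGraph.exists_walk_of_edist_ne_top hne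
  have h1 := h u hu w hw huw p
  rw [← hp] at hcon
  have h2 : p.length ≤ s := by exact_mod_cast hcon
  omega

/-- Every finite claw-free cubic graph is (1,1,2,3)-packing colourable. -/
theorem result : ∀ (V : Type) [Fintype V] (G : SimpleGraph V), Cubic G → ClawFree G →
    ∃ c : V → Fin 4, IsPacking G 1 {v | c v = 0} ∧ IsPacking G 1 {v | c v = 1} ∧
      IsPacking G 2 {v | c v = 2} ∧ IsPacking G 3 {v | c v = 3} := by
  intro V _ G hcub hclaw
  obtain ⟨c, h0, h1, h2, h3⟩ := V11253.PK.final hcub hclaw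
  exact ⟨c, of_walk h0, of_walk h1, of_walk h2, of_walk h3⟩

end Pool.Agent.Results.MP_b5f1b3_co.PackingColouring
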